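import Pool.Graph.R_pool_sql_team_seeded_843ab51a.V11106.DB.Main

/-!
# Representations in the numerically trivial cycles modulo homological equivalence: definitions
-/

open CategoryTheory AlgebraicGeometry

universe u v w x y

namespace Pool.Agent.Helper56.DUniv

open Pool.Agent.H914 Pool.Agent.H914.VarClass Pool.Agent.H914.VarClass.Obj Pool.Agent.W492.BB
  Pool.Agent.TH133 Pool.Agent.V1157.PO Pool.Agent.V11106.DB

variable {k : Type u} [Field k] {𝒱 : VarClass k}

/-- Varieties over the finite extensions of a field and the Galois action on their cycles. Here `F`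
is a perfect field, `k` an algebraic closure of `F`, `G` the Galois group of `k` over `F`, and `𝒱`
and `C` are a class of varieties over `k` and their Chow groups with rational coefficients. -/
structure FormData (G : Type x) [Group G] (C : TheoryData.{u, v, 0} 𝒱 ℚ) where
  /-- the pairs of a finite extension `L` of `F` in `k` and a variety `X` over `L` -/
  Form : Type y
  /-- the variety over `k` given by the variety `X` over `L` -/
  obj : Form → 𝒱.Obj
  /-- the Galois group of `k` over `L` -/
  grp : Form → Subgroup G
  /-- the conjugate of the morphism `f : X ⟶ Y` over `k` by the automorphism `g` in the Galois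
  groups of `X` and `Y` -/
  conj : G → ∀ X Y : Form, (obj X ⟶ obj Y) → (obj X ⟶ obj Y)
  /-- `act g X z` is the conjugate of the cycle `z` on `X` (over `k`), for `g` in the Galois group
  of `X` -/
  act : G → ∀ X : Form, C.A (obj X) → C.A (obj X)

variable {G : Type x} [Group G] {C : TheoryData.{u, v, 0} 𝒱 ℚ} (R : FormData.{u, v, x, y} G C)

/-- The laws of the Galois action on cycles: every variety over `k` is defined over a finite
extension of `F`; every cycle is fixed by an open subgroup; the conjugation of cycles is an action by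
linear maps, compatible with pull-backs along morphisms (over `k`), and the conjugates of
numerically trivial cycles are numerically trivial. -/
structure IsGalois [TopologicalSpace G] : Prop where
  surj : ∀ X : 𝒱.Obj, ∃ S : R.Form, R.obj S = X
  stab : ∀ (X : R.Form) (z : C.A (R.obj X)), ∃ U : Subgroup G, U ≤ R.grp X ∧
    IsOpen (U : Set G) ∧ ∀ g ∈ U, R.act g X z = z
  one : ∀ (X : R.Form) (z : C.A (R.obj X)), R.act 1 X z = z
  mul : ∀ X : R.Form, ∀ g ∈ R.grp X, ∀ h ∈ R.grp X, ∀ z : C.A (R.obj X),
    R.act (g * h) X z = R.act g X (R.act h X z)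
  add : ∀ X : R.Form, ∀ g ∈ R.grp X, ∀ z z' : C.A (R.obj X),
    R.act g X (z + z') = R.act g X z + R.act g X z'
  smul : ∀ X : R.Form, ∀ g ∈ R.grp X, ∀ (c : ℚ) (z : C.A (R.obj X)),
    R.act g X (c • z) = c • R.act g X z
  pull : ∀ (X Y : R.Form) (f : R.obj X ⟶ R.obj Y), ∀ g ∈ R.grp X, g ∈ R.grp Y →
    ∀ z : C.A (R.obj Y), R.act g X (C.up f z) = C.up (R.conj g X Y f) (R.act g Y z)
  num : ∀ (X : R.Form) (r : ℕ), ∀ g ∈ R.grp X, ∀ z : C.A (R.obj X), NumTrivial C r z →
    NumTrivial C r (R.act g X z)

/-- `P` is a family of subspaces of the numerically trivial cycles of codimension `r` on the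
varieties of dimension `n`, stable under pull-backs along morphisms between varieties of dimension
`n` and under conjugation. (For example: all numerically trivial cycles of codimension `r`; or those
which are homologically trivial for another Weil cohomology theory.) -/
structure IsFamily (n r : ℕ) (P : ∀ X : 𝒱.Obj, C.A X → Prop) : Prop
    extends IsNumFamily C n r P where
  zero : ∀ {X : 𝒱.Obj}, X.dim = n → P X 0
  add : ∀ {X : 𝒱.Obj} {z z' : C.A X}, X.dim = n → P X z → P X z' → P X (z + z')
  smul : ∀ {X : 𝒱.Obj} (c : ℚ) {z : C.A X}, X.dim = n → P X z → P X (c • z)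
  galois : ∀ X : R.Form, ∀ g ∈ R.grp X, ∀ z : C.A (R.obj X), (R.obj X).dim = n → P (R.obj X) z →
    P (R.obj X) (R.act g X z)

/-- The group `Δ` acts on the variety `X` over `L` from the left, by the morphisms `σ d` over
`L`. -/
structure IsAction (X : R.Form) {Δ : Type} [Group Δ] (σ : Δ → (R.obj X ⟶ R.obj X)) : Prop where
  one : σ 1 = 𝟙 (R.obj X)
  mul : ∀ d e : Δ, σ (d * e) = σ e ≫ σ d
  conj : ∀ g ∈ R.grp X, ∀ d : Δ, R.conj g X X (σ d) = σ d

/-- The morphism `q : X ⟶ Y` is defined over `F`, invariant under the action `σ` of `Δ` on `X`, and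
of degree `κ ≠ 0`; so it is generically finite and surjective. -/
structure IsInvariantCover (X Y : R.Form) {Δ : Type} (σ : Δ → (R.obj X ⟶ R.obj X))
    (q : R.obj X ⟶ R.obj Y) (κ : ℚ) : Prop where
  conj : ∀ g : G, R.conj g X Y q = q
  comp : ∀ d : Δ, σ d ≫ q = q
  ne_zero : κ ≠ 0
  down : C.down q 1 = κ • (1 : C.A (R.obj Y))

/-- The representation `ρ` of `G × Δ` is continuous for the discrete topology: an open subgroup of
`G` acts trivially. (So as a representation of `G` it is an Artin representation.) -/
def HasOpenKernel [TopologicalSpace G] {Δ : Type} [Group Δ] {E : Type} [AddCommGroup E]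
    [Module ℚ E] (ρ : Representation ℚ (G × Δ) E) : Prop :=
  ∃ U : Subgroup G, IsOpen (U : Set G) ∧ ∀ g ∈ U, ρ (g, 1) = 1

/-- The rational representation `ρ` of `G × Δ` occurs, above the variety `Y` over `F`, in the cycles
of the family `P` modulo homological equivalence: there are a variety `X` over `F` of dimension `n`,
an action of `Δ` on `X` over `F`, a `Δ`-invariant morphism `q : X ⟶ Y` over `F` of degree `κ ≠ 0`,
and a `G × Δ`-equivariant `ℚ`-linear map `φ` from the space `E` of `ρ` to the cycles on `X` (over
`k`, modulo rational equivalence) with values in `P`, such that the cohomology classes of the images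
of a basis of `E` are linearly independent over the coefficient field `K` of the cohomology. (So `E`
is a subrepresentation of the cycles in `P` modulo homological equivalence, and `E ⊗ K` one of
the cohomology.) -/
def OccursAbove {K : Type w} [Field K] (H : WeilTheoryData.{u, v, w} C K)
    (P : ∀ X : 𝒱.Obj, C.A X → Prop) (Y : R.Form) (n : ℕ) {Δ : Type} [Group Δ] {E : Type}
    [AddCommGroup E] [Module ℚ E] [Module.Finite ℚ E] (ρ : Representation ℚ (G × Δ) E) : Prop :=
  ∃ (X : R.Form) (σ : Δ → (R.obj X ⟶ R.obj X)) (q : R.obj X ⟶ R.obj Y) (κ : ℚ)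
    (φ : E →ₗ[ℚ] C.A (R.obj X)),
    R.grp X = ⊤ ∧ (R.obj X).dim = n ∧ IsAction R X σ ∧ IsInvariantCover R X Y σ q κ ∧
    (∀ e, P (R.obj X) (φ e)) ∧
    (∀ g d e, φ (ρ (g, d) e) = R.act g X (C.up (σ d⁻¹) (φ e))) ∧
    LinearIndependent K (fun i => H.cl (φ (Module.finBasis ℚ E i)))

/-- Let `S` be a variety over `L` and `Y` a variety over `F`, both of dimension `n`, let `χ` be a
surjection of the Galois group of `k` over `L` onto the finite group `Γ`, with open kernel, and `Δ`
a finite group. There are a variety `V` over `F` of dimension `n` with an action of `Δ`, a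
`Δ`-invariant morphism `q : V ⟶ Y` over `F` of degree `κ' ≠ 0`, and morphisms `p i m d : V ⟶ S`
over `k`, `i ∈ Γ`, `m < M`, `d ∈ Δ`, of the same degree `κ ≠ 0`, such that the conjugate of
`p i m d` by `g` is `p (χ g * i) m d`, the composition of the action of `e` on `V` and of `p i m d`
is `p i m (d * e)`, and a divisor class `a` on `S` such that for different `(i, m, d)` and
`(i', m', d')` the class `(p i m d, p i' m' d')_* [V]` on `S × S` is a rational multiple of
`(a × S + S × a) ^ n`. (Let `L'` be the Galois extension of `L` given by `χ` and `M' ≥ M` large, then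
`V` is a `Δ`-invariant complete intersection in the product of `Y` and the restriction of scalars of
`S^{M' × Δ}` from `L'` to `F`, and the `p i m d` are the projections to the factors `S` belonging to
the embeddings of `L'` into `k` over `L` and to the indices `m < M`.) -/
def HasInvariantIntersection (n : ℕ) (Y : R.Form) {S : R.Form} {Γ : Type x} [Group Γ]
    (χ : R.grp S →* Γ) (Δ : Type) [Group Δ] (M : ℕ) : Prop :=
  ∃ (V : R.Form) (p : Γ → Fin M → Δ → (R.obj V ⟶ R.obj S)) (σ : Δ → (R.obj V ⟶ R.obj V))
    (q : R.obj V ⟶ R.obj Y) (a : C.A (R.obj S)) (c κ κ' : ℚ),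
    R.grp V = ⊤ ∧ (R.obj V).dim = n ∧ C.Deg 1 a ∧ κ ≠ 0 ∧
    (∀ i m d, C.down (p i m d) 1 = κ • (1 : C.A (R.obj S))) ∧
    (∀ i m d i' m' d', (i, m, d) ≠ (i', m', d') →
      C.down (Obj.lift (p i m d) (p i' m' d')) 1 =
        c • (C.up (fst (R.obj S) (R.obj S)) a + C.up (snd (R.obj S) (R.obj S)) a) ^ n) ∧
    (∀ (g : R.grp S) i m d, R.conj g V S (p i m d) = p (χ g * i) m d) ∧
    IsAction R V σ ∧ (∀ e i m d, σ e ≫ p i m d = p i m (d * e)) ∧ IsInvariantCover R V Y σ q κ'

/-- All the complete intersections above exist. (True for smooth projective varieties over a perfect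
field `F` with infinitely many elements by the theorem of Bertini, and over finite fields by the
Bertini theorem of Poonen.) -/
def HasInvariantIntersections [TopologicalSpace G] (n : ℕ) : Prop :=
  ∀ (Y S : R.Form) (Γ : Type x) [Group Γ] [Finite Γ] (χ : R.grp S →* Γ) (Δ : Type) [Group Δ]
    [Finite Δ] (M : ℕ), R.grp Y = ⊤ → (R.obj Y).dim = n → (R.obj S).dim = n →
      Function.Surjective χ → IsOpen (χ.ker : Set (R.grp S)) → HasInvariantIntersection R n Y χ Δ M

end Pool.Agent.Helper56.DUniv
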