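import Pool.Agent.Helper56.DUniv.Defs
import Mathlib.Topology.Algebra.Category.ProfiniteGrp.Basic

/-!
# Representations in the numerically trivial cycles modulo homological equivalence
-/

open CategoryTheory AlgebraicGeometry

universe u v w x y

namespace Pool.Agent.Helper56.DUniv

open Pool.Agent.H914 Pool.Agent.H914.VarClass Pool.Agent.H914.VarClass.Obj Pool.Agent.W492.BB
  Pool.Agent.W550.Corr Pool.Agent.TH133 Pool.Agent.Y148.BB Pool.Agent.V1157.KF
  Pool.Agent.V1157.PO Pool.Agent.V11106.DB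
open Pool.Agent.V1157.RC (cog_gr push_pull_of)

set_option linter.unusedSectionVars false

variable {k : Type u} [Field k] {𝒱 : VarClass k} {C : TheoryData.{u, v, 0} 𝒱 ℚ}
  [hC : IsChowProj C] {K : Type w} [Field K] {H : WeilTheoryData.{u, v, w} C K}
  [hH : IsWeilProj H] {n r : ℕ} {G : Type x} [Group G]
  {R : FormData.{u, v, x, y} G C} {P : ∀ X : 𝒱.Obj, C.A X → Prop}

/-- The data of `HasInvariantIntersection`. -/
structure TPow (R : FormData.{u, v, x, y} G C) (n : ℕ) {S : R.Form} {Γ : Type x} [Group Γ]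
    (χ : R.grp S →* Γ) (Δ : Type) [Group Δ] (M : ℕ) (V : R.Form)
    (p : Γ → Fin M → Δ → (R.obj V ⟶ R.obj S)) (σ : Δ → (R.obj V ⟶ R.obj V))
    (a : C.A (R.obj S)) (c κ : ℚ) : Prop where
  dimS : (R.obj S).dim = n
  top : R.grp V = ⊤
  dimV : (R.obj V).dim = n
  ha : C.Deg 1 a
  hκ : κ ≠ 0
  pp : ∀ i m d, C.down (p i m d) 1 = κ • (1 : C.A (R.obj S))
  pq : ∀ i m d i' m' d', (i, m, d) ≠ (i', m', d') →
      C.down (Obj.lift (p i m d) (p i' m' d')) 1 =
        c • (C.up (fst (R.obj S) (R.obj S)) a + C.up (snd (R.obj S) (R.obj S)) a) ^ n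
  conj : ∀ (g : R.grp S) i m d, R.conj g V S (p i m d) = p (χ g * i) m d
  act : IsAction R V σ
  comp : ∀ e i m d, σ e ≫ p i m d = p i m (d * e)

section power

variable {S V : R.Form} {Γ : Type x} [Group Γ] {χ : R.grp S →* Γ} {Δ : Type} [Group Δ] {M : ℕ}
    {p : Γ → Fin M → Δ → (R.obj V ⟶ R.obj S)} {σ : Δ → (R.obj V ⟶ R.obj V)}
    {a : C.A (R.obj S)} {c κ : ℚ}

lemma TPow.pw (h : TPow R n χ Δ M V p σ a c κ) {i i' : Γ} {m m' : Fin M} {d d' : Δ}
    (hne : (i, m, d) ≠ (i', m', d')) :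
    Pw C n 2 (fun l => if l = 0 then p i m d else p i' m' d') a c κ where
  dimS := h.dimS
  dimV := h.dimV
  ha := h.ha
  hκ := h.hκ
  pp l hl := by
    by_cases h0 : l = 0
    · rw [if_pos h0]
      exact h.pp i m d
    · rw [if_neg h0]
      exact h.pp i' m' d'
  pq l hl l' hl' hll := by
    by_cases h0 : l = 0
    · rw [if_pos h0, if_neg (by omega)]
      exact h.pq _ _ _ _ _ _ hne
    · rw [if_neg h0, if_pos (by omega)]
      exact h.pq _ _ _ _ _ _ hne.symm

lemma TPow.push_pull_ne (h : TPow R n χ Δ M V p σ a c κ) {i i' : Γ} {m m' : Fin M} {d d' : Δ}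
    (hne : (i, m, d) ≠ (i', m', d')) {t : C.A (R.obj S)} (ht : NumTrivial C r t) :
    C.push (p i' m' d') (C.pull (p i m d) t) = 0 :=
  push_pull_num (h.pw hne) (i := 0) (j := 1) (by omega) (by omega) (by omega) ht

lemma TPow.push_pull (h : TPow R n χ Δ M V p σ a c κ) (i : Γ) (m : Fin M) (d : Δ)
    (t : C.A (R.obj S)) : C.push (p i m d) (C.pull (p i m d) t) = κ • t :=
  push_pull_of (h.pp i m d) t

end power


/-- A cycle of the family which is not homologically trivial exists on a variety over `F`. -/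
lemma exists_base [TopologicalSpace G] (hR : IsGalois R) (hF : IsFamily R n r P)
    (hP : HasInvariantIntersections R n) {Y : R.Form}
    (hYG : R.grp Y = ⊤) (hY : (R.obj Y).dim = n) {X : 𝒱.Obj} (hX : X.dim = n) {x : C.A X}
    (hx : P X x) (hne : H.cl x ≠ 0) :
    ∃ (V : R.Form) (z : C.A (R.obj V)), R.grp V = ⊤ ∧ (R.obj V).dim = n ∧ P (R.obj V) z ∧
      H.cl z ≠ 0 := by
  obtain ⟨S, rfl⟩ := hR.surj X
  have hker : IsOpen (((1 : R.grp S →* PUnit.{x + 1}).ker : Subgroup (R.grp S)) :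
      Set (R.grp S)) := by
    have : ((1 : R.grp S →* PUnit.{x + 1}).ker : Subgroup (R.grp S)) = ⊤ := MonoidHom.ker_one
    rw [this]
    exact isOpen_univ
  obtain ⟨V, p, σ, q, a, c, κ, κ', e1, e2, e3, e4, e5, e6, e7, e8, e9, e10⟩ :=
    hP Y S PUnit.{x + 1} (1 : R.grp S →* PUnit.{x + 1}) Unit 1 hYG hY hX
      (fun _ => ⟨1, rfl⟩) hker
  have h : TPow R n _ _ _ V p σ a c κ := ⟨hX, e1, e2, e3, e4, e5, e6, e7, e8, e9⟩
  refine ⟨V, C.up (p 1 0 1) x, e1, e2, hF.pull (p 1 0 1) e2 hX hx, ?_⟩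
  intro hcon
  have h1 : H.cl (C.push (p 1 0 1) (C.pull (p 1 0 1) x)) = 0 := by
    have h2 := H.cl_push (p 1 0 1) (C.pull (p 1 0 1) x)
    rw [h2]
    have h3 : H.cl (C.pull (p 1 0 1) x) = 0 := hcon
    rw [h3, map_zero]
  rw [h.push_pull] at h1
  exact hne (cl_smul_zero H h.hκ h1)

section main

variable [TopologicalSpace G] [IsTopologicalGroup G] [CompactSpace G] [TotallyDisconnectedSpace G]
  {E : Type} [AddCommGroup E] [Module ℚ E]

/-- If some cycle of the family is not homologically trivial, then all representations with open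
kernel occur. -/
theorem occurs_of_not (hR : IsGalois R) (hF : IsFamily R n r P)
    (hP : HasInvariantIntersections R n)
    {Y : R.Form} (hYG : R.grp Y = ⊤) (hY : (R.obj Y).dim = n) (hne : ¬ Vanishes H P n)
    {Δ : Type} [Group Δ] [Finite Δ] [Module.Finite ℚ E] (ρ : Representation ℚ (G × Δ) E)
    (hρ : HasOpenKernel ρ) :
    OccursAbove R H P Y n ρ := by
  classical
  obtain ⟨X₀, t₀, hX₀, ht₀, hne₀⟩ : ∃ (X₀ : 𝒱.Obj) (t₀ : C.A X₀), X₀.dim = n ∧
      P X₀ t₀ ∧ H.cl t₀ ≠ 0 := by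
    unfold Vanishes at hne
    push Not at hne
    exact hne
  obtain ⟨S, t, hSG, hS, ht, hnt⟩ := exists_base hR hF hP hYG hY hX₀ ht₀ hne₀
  obtain ⟨U₁, hU₁S, hU₁, hU₁'⟩ := hR.stab S t
  obtain ⟨U₂, hU₂, hU₂'⟩ := hρ
  obtain ⟨N, hN⟩ := ProfiniteGrp.exist_openNormalSubgroup_sub_open_nhds_of_one
    (G := G) (hU₁.inter hU₂) ⟨U₁.one_mem, U₂.one_mem⟩
  have hN1 : ∀ g ∈ N.toSubgroup, g ∈ U₁ := fun g hg => (hN hg).1
  have hN2 : ∀ g ∈ N.toSubgroup, g ∈ U₂ := fun g hg => (hN hg).2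
  have hNn : N.toSubgroup.Normal := inferInstance
  have hNo : IsOpen (N.toSubgroup : Set G) := N.isOpen'
  have hfin : Finite (G ⧸ N.toSubgroup) := N.toSubgroup.quotient_finite_of_isOpen hNo
  have hmemS : ∀ g : G, g ∈ R.grp S := fun g => by rw [hSG]; exact Subgroup.mem_top _
  let χ : R.grp S →* (G ⧸ N.toSubgroup) := (QuotientGroup.mk' N.toSubgroup).comp (R.grp S).subtype
  have hχ : Function.Surjective χ := by
    intro i
    obtain ⟨g, rfl⟩ := QuotientGroup.mk'_surjective N.toSubgroup i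
    exact ⟨⟨g, hmemS g⟩, rfl⟩
  have hχo : IsOpen (χ.ker : Set (R.grp S)) := by
    have h1 : (χ.ker : Set (R.grp S)) = (R.grp S).subtype ⁻¹' (N.toSubgroup : Set G) := by
      ext g
      change χ g = 1 ↔ _
      change (QuotientGroup.mk' N.toSubgroup) (g : G) = 1 ↔ (g : G) ∈ N.toSubgroup
      rw [← MonoidHom.mem_ker, QuotientGroup.ker_mk']
    rw [h1]
    exact hNo.preimage continuous_subtype_val
  let b := Module.finBasis ℚ E
  obtain ⟨V, p, σ, q, a, c, κ, κ', e1, e2, e3, e4, e5, e6, e7, e8, e9, e10⟩ :=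
    hP Y S (G ⧸ N.toSubgroup) χ Δ (Module.finrank ℚ E) hYG hY hS hχ hχo
  have h : TPow R n χ Δ _ V p σ a c κ := ⟨hS, e1, e2, e3, e4, e5, e6, e7, e8, e9⟩
  have hmemV : ∀ g : G, g ∈ R.grp V := fun g => by rw [e1]; exact Subgroup.mem_top _
  have hft : Fintype (G ⧸ N.toSubgroup) := Fintype.ofFinite _
  have hfd : Fintype Δ := Fintype.ofFinite _
  -- the conjugates of `t`
  let s : G ⧸ N.toSubgroup → C.A (R.obj S) := fun i => R.act i.out S t
  have hsP : ∀ i, P (R.obj S) (s i) := fun i => hF.galois S _ (hmemS _) t hS ht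
  have hout : ∀ g : G, ∃ m ∈ N.toSubgroup, (QuotientGroup.mk (s := N.toSubgroup) g).out = g * m := by
    intro g
    have h2 : (QuotientGroup.mk (s := N.toSubgroup) (QuotientGroup.mk (s := N.toSubgroup) g).out) =
      QuotientGroup.mk g := Quotient.out_eq' _
    refine ⟨g⁻¹ * (QuotientGroup.mk (s := N.toSubgroup) g).out, QuotientGroup.eq.1 h2.symm, ?_⟩
    rw [mul_inv_cancel_left]
  have hs : ∀ g : G, s (QuotientGroup.mk g) = R.act g S t := by
    intro g
    obtain ⟨m, hm, hgm⟩ := hout g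
    change R.act (QuotientGroup.mk (s := N.toSubgroup) g).out S t = _
    rw [hgm, hR.mul S g (hmemS _) m (hmemS _) t, hU₁' m (hN1 m hm)]
  have hact : ∀ (g : G) (i : G ⧸ N.toSubgroup), R.act g S (s i) =
      s (QuotientGroup.mk g * i) := by
    intro g i
    obtain ⟨g', rfl⟩ := QuotientGroup.mk_surjective i
    rw [hs g', ← hR.mul S g (hmemS _) g' (hmemS _) t, ← hs]
    rfl
  -- the coefficients
  let co : G ⧸ N.toSubgroup → Δ → E →ₗ[ℚ] E := fun i d => ρ (i.out⁻¹, d)
  have hco : ∀ (g : G) (d : Δ), co (QuotientGroup.mk g) d = ρ (g⁻¹, d) := by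
    intro g d
    obtain ⟨m, hm, hgm⟩ := hout g
    change ρ ((QuotientGroup.mk (s := N.toSubgroup) g).out⁻¹, d) = _
    have h1 : (((QuotientGroup.mk (s := N.toSubgroup) g).out⁻¹, d) : G × Δ) =
        (m⁻¹, 1) * (g⁻¹, d) := by
      rw [hgm, mul_inv_rev]
      exact Prod.ext rfl (one_mul d).symm
    rw [h1, map_mul, hU₂' m⁻¹ (hN2 _ (N.toSubgroup.inv_mem hm)), one_mul]
  have hco2 : ∀ (g : G) (i : G ⧸ N.toSubgroup) (d e : Δ) (z : E),
      co (QuotientGroup.mk g * i) (d * e⁻¹) (ρ (g, e) z) = co i d z := by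
    intro g i d e z
    obtain ⟨g', rfl⟩ := QuotientGroup.mk_surjective i
    have h1 : (QuotientGroup.mk g * QuotientGroup.mk g' : G ⧸ N.toSubgroup) =
      QuotientGroup.mk (g * g') := rfl
    rw [h1, hco, hco]
    have h2 := map_mul ρ (((g * g')⁻¹, d * e⁻¹) : G × Δ) (g, e)
    have h3 : (((g * g')⁻¹, d * e⁻¹) : G × Δ) * (g, e) = (g'⁻¹, d) := by
      refine Prod.ext ?_ ?_
      · change (g * g')⁻¹ * g = g'⁻¹
        group
      · change d * e⁻¹ * e = d
        group
    rw [h3] at h2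
    rw [h2]
    rfl
  -- the equivariant map
  let ι := (G ⧸ N.toSubgroup) × Fin (Module.finrank ℚ E) × Δ
  let w : ι → C.A (R.obj V) := fun q => C.up (p q.1 q.2.1 q.2.2) (s q.1)
  have hwP : ∀ q, P (R.obj V) (w q) := fun q => hF.pull _ e2 hS (hsP q.1)
  let φ : E →ₗ[ℚ] C.A (R.obj V) := ∑ q : ι,
    ((b.coord q.2.1).comp (co q.1 q.2.2)).smulRight (w q)
  have hφ : ∀ z, φ z = ∑ q : ι, (b.coord q.2.1 (co q.1 q.2.2 z)) • w q := by
    intro z
    simp [φ, LinearMap.sum_apply]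
  have hφP : ∀ z, P (R.obj V) (φ z) := by
    intro z
    rw [hφ]
    have : ∀ A : Finset ι, P (R.obj V) (∑ q ∈ A, (b.coord q.2.1 (co q.1 q.2.2 z)) • w q) := by
      intro A
      induction A using Finset.induction_on with
      | empty =>
        rw [Finset.sum_empty]
        exact hF.zero e2
      | insert i A hi ih =>
        rw [Finset.sum_insert hi]
        exact hF.add e2 (hF.smul _ e2 (hwP i)) ih
    exact this _
  -- Galois action on sums
  have hsum : ∀ (g : G) (A : Finset ι) (f : ι → C.A (R.obj V)),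
      R.act g V (∑ i ∈ A, f i) = ∑ i ∈ A, R.act g V (f i) := by
    intro g A f
    induction A using Finset.induction_on with
    | empty =>
      rw [Finset.sum_empty, Finset.sum_empty]
      have := hR.smul V g (hmemV g) 0 0
      rwa [zero_smul, zero_smul] at this
    | insert i A hi ih =>
      rw [Finset.sum_insert hi, Finset.sum_insert hi, hR.add V g (hmemV g), ih]
  have hw : ∀ (g : G) (e : Δ) (q : ι), R.act g V (C.up (σ e⁻¹) (w q)) =
      w (QuotientGroup.mk g * q.1, q.2.1, q.2.2 * e⁻¹) := by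
    intro g e q
    have h1 : C.up (σ e⁻¹) (w q) = C.up (p q.1 q.2.1 (q.2.2 * e⁻¹)) (s q.1) := by
      have h2 := C.pull_comp (σ e⁻¹) (p q.1 q.2.1 q.2.2) (s q.1)
      rw [h.comp] at h2
      exact h2.symm
    rw [h1, hR.pull V S _ g (hmemV g) (hmemS g), hact]
    have h3 := h.conj ⟨g, hmemS g⟩ q.1 q.2.1 (q.2.2 * e⁻¹)
    exact congrArg (fun f => C.up f (s (QuotientGroup.mk g * q.1))) h3
  have hequiv : ∀ (g : G) (e : Δ) (z : E),
      φ (ρ (g, e) z) = R.act g V (C.up (σ e⁻¹) (φ z)) := by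
    intro g e z
    have hup : C.up (σ e⁻¹) (φ z) =
        ∑ q : ι, C.up (σ e⁻¹) ((b.coord q.2.1 (co q.1 q.2.2 z)) • w q) := by
      rw [hφ z]
      exact map_sum (C.pull (σ e⁻¹)) _ _
    rw [hup, hsum g, hφ]
    let f : ι ≃ ι := (Equiv.mulLeft (QuotientGroup.mk g)).prodCongr
      ((Equiv.refl _).prodCongr (Equiv.mulRight e⁻¹))
    have hf : ∀ q, f q = (QuotientGroup.mk g * q.1, q.2.1, q.2.2 * e⁻¹) := fun q => rfl
    rw [← Equiv.sum_comp f]
    refine Finset.sum_congr rfl fun q _ => ?_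
    have hsm : C.up (σ e⁻¹) ((b.coord q.2.1 (co q.1 q.2.2 z)) • w q) =
        (b.coord q.2.1 (co q.1 q.2.2 z)) • C.up (σ e⁻¹) (w q) := map_smul (C.pull (σ e⁻¹)) _ _
    rw [hsm, hR.smul V g (hmemV g), hw g e q, hf q]
    exact congrArg (fun x => b.coord q.2.1 x • w (QuotientGroup.mk g * q.1, q.2.1,
      q.2.2 * e⁻¹)) (hco2 g q.1 q.2.2 e z)
  refine ⟨V, σ, q, κ', φ, e1, e2, e8, e10, hφP, hequiv, ?_⟩
  have h0 : s (QuotientGroup.mk 1) = t := by rw [hs 1, hR.one S t]
  have h0' : ∀ z, co (QuotientGroup.mk 1) 1 z = z := by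
    intro z
    rw [hco 1 1, inv_one]
    exact congrArg (fun f : E →ₗ[ℚ] E => f z) (map_one ρ)
  -- the push-forward of `φ z` along one of the projections
  have key : ∀ (m : Fin (Module.finrank ℚ E)) (z : E),
      C.push (p (QuotientGroup.mk 1) m 1) (φ z) = b.coord m z • κ • t := by
    intro m z
    let q₀ : ι := (QuotientGroup.mk 1, m, 1)
    change C.push (p q₀.1 q₀.2.1 q₀.2.2) (φ z) = _
    rw [hφ, map_sum, ← Finset.add_sum_erase _ _ (Finset.mem_univ q₀)]
    have h2 : (∑ q ∈ Finset.univ.erase q₀, C.push (p q₀.1 q₀.2.1 q₀.2.2)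
        ((b.coord q.2.1 (co q.1 q.2.2 z)) • w q)) = 0 := by
      apply Finset.sum_eq_zero
      intro q hq
      have h3 : C.push (p q₀.1 q₀.2.1 q₀.2.2) (w q) = 0 :=
        h.push_pull_ne (Finset.mem_erase.1 hq).1 (hF.num hS (hsP q.1))
      rw [map_smul, h3, smul_zero]
    rw [h2, add_zero, map_smul]
    have h4 : C.push (p q₀.1 q₀.2.1 q₀.2.2) (w q₀) = κ • t := by
      have h5 := h.push_pull q₀.1 q₀.2.1 q₀.2.2 (s q₀.1)
      rw [show s q₀.1 = t from h0] at h5
      change C.push (p q₀.1 q₀.2.1 q₀.2.2) (C.pull (p q₀.1 q₀.2.1 q₀.2.2) (s q₀.1)) = _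
      rw [show s q₀.1 = t from h0]
      exact h5
    rw [h4]
    have h6 : b.coord q₀.2.1 (co q₀.1 q₀.2.2 z) = b.coord m z := by
      change b.coord m (co (QuotientGroup.mk 1) 1 z) = _
      rw [h0']
    rw [h6]
  rw [Fintype.linearIndependent_iff]
  intro g hg m
  by_contra hcon
  have h1 := congrArg (H.push (p (QuotientGroup.mk 1) m 1)) hg
  rw [map_sum, map_zero, Finset.sum_eq_single m] at h1
  · rw [map_smul] at h1
    have h2 := H.cl_push (p (QuotientGroup.mk 1) m 1) (φ (b m))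
    have h3 : H.cl (C.push (p (QuotientGroup.mk 1) m 1) (φ (b m))) = 0 := by
      rw [h2]
      exact (smul_eq_zero.1 h1).resolve_left hcon
    rw [key, b.coord_apply, b.repr_self, Finsupp.single_eq_same, one_smul] at h3
    exact hnt (cl_smul_zero H h.hκ h3)
  · intro j _ hj
    rw [map_smul]
    have h2 := H.cl_push (p (QuotientGroup.mk 1) m 1) (φ (b j))
    have h3 : H.push (p (QuotientGroup.mk 1) m 1) (H.cl (φ (b j))) = 0 := by
      rw [← h2, key, b.coord_apply, b.repr_self, Finsupp.single_eq_of_ne (by simpa using hj.symm),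
        zero_smul, map_zero]
    rw [h3, smul_zero]
  · intro h0
    exact absurd (Finset.mem_univ m) h0

omit [IsTopologicalGroup G] [CompactSpace G] [TotallyDisconnectedSpace G] hC hH in
/-- If the cycles of the family are homologically trivial, then the trivial representation does not
occur. -/
theorem not_occurs (h : Vanishes H P n) (Y : R.Form) :
    ¬ OccursAbove R H P Y n (Representation.trivial ℚ (G × Unit) ℚ) := by
  rintro ⟨X, σ, q, κ, φ, h1, h2, h3, h4, h5, h6, h7⟩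
  have hpos : 0 < Module.finrank ℚ ℚ := by rw [Module.finrank_self]; exact one_pos
  exact h7.ne_zero ⟨0, hpos⟩ (h (R.obj X) _ h2 (h5 _))

end main

section num

/-- The family of all numerically trivial cycles. -/
theorem isFamily_num [TopologicalSpace G] (hR : IsGalois R)
    (H' : WeilTheoryData.{u, v, w} C K) [IsWeilProj H'] :
    IsFamily R n r (fun _ x => NumTrivial C r x) where
  num _ h := h
  pull _ _ hX hY h := num_pull H' hY hX h
  zero {X} hX := by
    refine ⟨Submodule.zero_mem _, fun y hy Z => ?_⟩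
    have h0 : C.mul (0 : C.A X) y = 0 := zero_mul y
    rw [h0]
    simp
  add {X z z'} hX h h' := by
    refine ⟨Submodule.add_mem _ h.1 h'.1, fun y hy Z => ?_⟩
    have h0 : C.mul (z + z') y = C.mul z y + C.mul z' y := add_mul z z' y
    have h1 := h.2 y hy Z
    have h2 := h'.2 y hy Z
    rw [h0]
    simp only [map_add, h1.1, h1.2, h2.1, h2.2, zero_smul, add_zero, and_self]
  smul {X} c {z} hX h := by
    refine ⟨Submodule.smul_mem _ _ h.1, fun y hy Z => ?_⟩
    have h0 : C.mul (c • z) y = c • C.mul z y := smul_mul_assoc c z y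
    have h1 := h.2 y hy Z
    rw [h0]
    simp only [map_smul, h1.1, h1.2, zero_smul, smul_zero, and_self]
  galois X g hg z _ h := hR.num X r g hg z h

end num

end Pool.Agent.Helper56.DUniv
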